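import Mathlib

/-!
# The functional `Φ_[n]` is not bounded by `C Φ_[n](D_N)` on centred bodies of volume one

For the volume-one cross-polytope `K ⊂ ℝ^N`, `n` fixed and `N → ∞`, the quotient
`Φ_[n](K) / Φ_[n](D_N)` stays above a multiple of `√n`.

Outline.  Write the columns `g_i ∈ ℝ^n` of `v ∈ (ℝ^N)^n`; then `|P_{span v} K|` is the volume of
`r · conv(± g_i)` divided by the square root of the Gram determinant of `v`.  Every family
`(g_i)` has a subfamily `g ∘ τ` of `n + (4n+1)^n` columns (`n` columns of maximal determinant and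
one column for every cell of a grid) whose absolutely convex hull, times `3/2`, contains all
`g_i`.  So the integral is at most a sum over `τ` of integrals in which the remaining
`N - card` columns are integrated over the hull itself; this cancels the power `-N` of the volume
of the hull and leaves `(3/2)^{nN}` times a polynomial in `N`.
-/

set_option autoImplicit false

open MeasureTheory Metric Set
open scoped RealInnerProductSpace

namespace Pool.Agent.Results.MP_ed9c69_gt.CrossPolytope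

/-- Euclidean space `ℝ^N` -/
abbrev E (N : ℕ) := EuclideanSpace ℝ (Fin N)

lemma null_dep (N : ℕ) : ∀ n : ℕ, n ≤ N →
    volume {v : Fin n → E N | ¬ LinearIndependent ℝ v} = 0 := by
  intro n
  induction n with
  | zero =>
    intro _
    have : {v : Fin 0 → E N | ¬ LinearIndependent ℝ v} = ∅ := by
      ext v
      simp
    rw [this]
    simp
  | succ n ih =>
    intro hn
    have ih' := ih (by omega)
    have hop : IsOpen {v : Fin (n + 1) → E N | LinearIndependent ℝ v} :=
      isOpen_setOfPred_linearIndependent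
    have hcl : MeasurableSet {v : Fin (n + 1) → E N | ¬ LinearIndependent ℝ v} :=
      hop.measurableSet.compl
    have mp := volume_preserving_piFinSuccAbove (fun _ : Fin (n + 1) => E N) 0
    rw [← (mp.symm _).measure_preimage hcl.nullMeasurableSet]
    rw [Measure.volume_eq_prod, ← Measure.prod_swap, Measure.map_apply measurable_swap
      (by exact (mp.symm _).measurable hcl)]
    rw [Measure.measure_prod_null
      (measurable_swap ((mp.symm _).measurable hcl))]
    have h1 : ∀ᵐ v : Fin n → E N, LinearIndependent ℝ v := by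
      rw [ae_iff]; exact ih'
    filter_upwards [h1] with v hv
    have h2 : Prod.mk v ⁻¹' (Prod.swap ⁻¹'
        ((MeasurableEquiv.piFinSuccAbove (fun _ : Fin (n + 1) => E N) 0).symm ⁻¹'
          {v : Fin (n + 1) → E N | ¬ LinearIndependent ℝ v})) ⊆
        (Submodule.span ℝ (Set.range v) : Set (E N)) := by
      intro x hx
      simp only [mem_preimage, Prod.swap_prod_mk, mem_ofPred_eq] at hx
      by_contra hxs
      apply hx
      have h3 : (MeasurableEquiv.piFinSuccAbove (fun _ : Fin (n + 1) => E N) 0).symm (x, v) =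
          (Fin.cons x v : Fin (n + 1) → E N) := by
        ext i
        refine Fin.cases ?_ (fun j => ?_) i
        · simp [MeasurableEquiv.piFinSuccAbove]
        · simp [MeasurableEquiv.piFinSuccAbove]
      rw [h3, linearIndependent_finCons]
      exact ⟨hv, hxs⟩
    refine measure_mono_null h2 ?_
    apply Measure.addHaar_submodule
    intro htop
    have h4 : Module.finrank ℝ (Submodule.span ℝ (Set.range v)) = n := by
      rw [finrank_span_eq_card hv, Fintype.card_fin]
    rw [htop, finrank_top, finrank_euclideanSpace_fin] at h4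
    omega

/-- the points of the form sum of c_j h_j with total weight at most a -/
def hull {J : Type*} [Fintype J] {n : ℕ} (a : ℝ) (h : J → Fin n → ℝ) : Set (Fin n → ℝ) :=
  {y | ∃ c : J → ℝ, ∑ j, |c j| ≤ a ∧ y = ∑ j, c j • h j}

section
variable {J : Type*} [Fintype J] {n : ℕ}

open Pointwise in
lemma hull_smul {a : ℝ} (ha : 0 < a) (h : J → Fin n → ℝ) : hull a h = a • hull 1 h := by
  ext y
  constructor
  · rintro ⟨c, hc, rfl⟩
    refine ⟨∑ j, (c j / a) • h j, ⟨fun j => c j / a, ?_, rfl⟩, ?_⟩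
    · simp_rw [abs_div, abs_of_pos ha]
      rw [← Finset.sum_div, div_le_one ha]
      exact hc
    · simp only [Finset.smul_sum, smul_smul]
      refine Finset.sum_congr rfl fun j _ => ?_
      rw [mul_div_cancel₀ _ ha.ne']
  · rintro ⟨_, ⟨c, hc, rfl⟩, rfl⟩
    refine ⟨fun j => a * c j, ?_, ?_⟩
    · simp_rw [abs_mul, abs_of_pos ha]
      rw [← Finset.mul_sum]
      nlinarith
    · simp only [Finset.smul_sum, smul_smul]

lemma vol_hull {a : ℝ} (ha : 0 < a) (h : J → Fin n → ℝ) :
    volume (hull a h) = ENNReal.ofReal (a ^ n) * volume (hull 1 h) := by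
  rw [hull_smul ha, Measure.addHaar_smul]
  simp [abs_of_pos ha]

lemma compact_weights (a : ℝ) : IsCompact {c : J → ℝ | ∑ j, |c j| ≤ a} := by
  refine Metric.isCompact_of_isClosed_isBounded ?_ ?_
  · exact isClosed_le (by fun_prop) continuous_const
  · refine (Metric.isBounded_iff_subset_closedBall (0 : J → ℝ)).2 ⟨a, ?_⟩
    intro c hc
    rw [mem_closedBall, dist_zero_right]
    have ha : 0 ≤ a := le_trans (Finset.sum_nonneg fun j _ => abs_nonneg (c j)) hc
    rw [pi_norm_le_iff_of_nonneg ha]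
    intro j
    rw [Real.norm_eq_abs]
    exact le_trans (Finset.single_le_sum (f := fun j => |c j|) (fun j _ => abs_nonneg _)
      (Finset.mem_univ j)) hc

lemma hull_graph_closed (a : ℝ) :
    IsClosed {p : (J → Fin n → ℝ) × (Fin n → ℝ) | p.2 ∈ hull a p.1} := by
  have hcomp : CompactSpace {c : J → ℝ | ∑ j, |c j| ≤ a} :=
    isCompact_iff_compactSpace.1 (compact_weights a)
  let S : Set ({c : J → ℝ | ∑ j, |c j| ≤ a} × ((J → Fin n → ℝ) × (Fin n → ℝ))) :=
    {q | q.2.2 = ∑ j, (q.1 : J → ℝ) j • q.2.1 j}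
  have hS : IsClosed S := by
    refine isClosed_eq (by fun_prop) ?_
    refine continuous_finsetSum _ fun j _ => ?_
    have h1 : Continuous fun q : {c : J → ℝ | ∑ j, |c j| ≤ a} ×
        ((J → Fin n → ℝ) × (Fin n → ℝ)) => (q.1 : J → ℝ) j :=
      (continuous_apply j).comp (continuous_subtype_val.comp continuous_fst)
    have h2 : Continuous fun q : {c : J → ℝ | ∑ j, |c j| ≤ a} ×
        ((J → Fin n → ℝ) × (Fin n → ℝ)) => q.2.1 j :=
      (continuous_apply j).comp (continuous_fst.comp continuous_snd)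
    exact h1.smul h2
  have h := isClosedMap_snd_of_compactSpace (X := {c : J → ℝ | ∑ j, |c j| ≤ a})
    (Y := (J → Fin n → ℝ) × (Fin n → ℝ)) S hS
  convert h using 1
  ext p
  constructor
  · rintro ⟨c, hc, hp⟩
    exact ⟨(⟨c, hc⟩, p), hp, rfl⟩
  · rintro ⟨⟨c, p'⟩, hq, rfl⟩
    exact ⟨c.1, c.2, hq⟩

lemma hull_closed (a : ℝ) (h : J → Fin n → ℝ) : IsClosed (hull a h) := by
  have := (hull_graph_closed (J := J) (n := n) a).preimage
    (Continuous.prodMk (continuous_const (y := h)) continuous_id)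
  exact this

lemma measurable_vol_hull (a : ℝ) : Measurable fun h : J → Fin n → ℝ => volume (hull a h) := by
  exact measurable_measure_prodMk_left (hull_graph_closed (J := J) (n := n) a).measurableSet

lemma hull_subset_cube {h : J → Fin n → ℝ} (hh : ∀ j k, |h j k| ≤ 1) :
    hull 1 h ⊆ Set.Icc (fun _ => (-1 : ℝ)) (fun _ => 1) := by
  rintro _ ⟨c, hc, rfl⟩
  have key : ∀ k, |(∑ j, c j • h j) k| ≤ 1 := by
    intro k
    rw [Finset.sum_apply]
    calc |∑ j, (c j • h j) k| ≤ ∑ j, |(c j • h j) k| := Finset.abs_sum_le_sum_abs _ _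
      _ ≤ ∑ j, |c j| := by
          refine Finset.sum_le_sum fun j _ => ?_
          simp only [Pi.smul_apply, smul_eq_mul, abs_mul]
          have := hh j k
          have := abs_nonneg (c j)
          nlinarith
      _ ≤ 1 := hc
  exact ⟨fun k => (abs_le.1 (key k)).1, fun k => (abs_le.1 (key k)).2⟩

lemma vol_cube : volume (Set.Icc (fun _ : Fin n => (-1 : ℝ)) (fun _ => 1)) = 2 ^ n := by
  rw [Real.volume_Icc_pi]
  norm_num

lemma vol_hull_le {h : J → Fin n → ℝ} (hh : ∀ j k, |h j k| ≤ 1) :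
    volume (hull 1 h) ≤ 2 ^ n := by
  rw [← vol_cube]
  exact measure_mono (hull_subset_cube hh)
end

section integral
variable {J : Type*} [Fintype J] {n N : ℕ}

/-- the set of admissible columns for the choice τ -/
def adm (n N : ℕ) (τ : J → Fin N) : Set (Fin N → Fin n → ℝ) :=
  {g | (∀ i j, |g i j| ≤ 1) ∧ (∀ i, g i ∈ hull (3 / 2) (fun j => g (τ j))) ∧
    volume (hull 1 (fun j => g (τ j))) ≠ 0}

lemma inner_bound (τ : J → Fin N) (hJ : Fintype.card J ≤ N) (p : Fin N → Prop) [DecidablePred p]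
    (hp : ∀ i, p i ↔ ∃ j, τ j = i) (a : {i // p i} → Fin n → ℝ) :
    ∫⁻ b : {i // ¬ p i} → Fin n → ℝ, (adm n N τ).indicator
      (fun g => ((volume (hull 1 (fun j => g (τ j)))) ^ (N - Fintype.card J))⁻¹)
      ((MeasurableEquiv.piEquivPiSubtypeProd (fun _ : Fin N => Fin n → ℝ) p).symm (a, b)) ≤
    (Set.pi Set.univ (fun _ : {i // p i} => Set.Icc (fun _ : Fin n => (-1 : ℝ)) (fun _ => 1))).indicator
      (fun _ => ENNReal.ofReal ((3 / 2) ^ (n * N)) *
        (2 ^ n) ^ (Fintype.card J - Fintype.card {i // p i})) a := by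
  classical
  set e := (MeasurableEquiv.piEquivPiSubtypeProd (fun _ : Fin N => Fin n → ℝ) p) with he
  have h1 : ∀ b j, e.symm (a, b) (τ j) = a ⟨τ j, (hp _).2 ⟨j, rfl⟩⟩ := by
    intro b j
    have : p (τ j) := (hp _).2 ⟨j, rfl⟩
    simp [he, MeasurableEquiv.piEquivPiSubtypeProd, Equiv.piEquivPiSubtypeProd, this]
  have h2 : ∀ b (i : Fin N) (hi : p i), e.symm (a, b) i = a ⟨i, hi⟩ := by
    intro b i hi
    simp [he, MeasurableEquiv.piEquivPiSubtypeProd, Equiv.piEquivPiSubtypeProd, hi]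
  have h3 : ∀ b (i : Fin N) (hi : ¬ p i), e.symm (a, b) i = b ⟨i, hi⟩ := by
    intro b i hi
    simp [he, MeasurableEquiv.piEquivPiSubtypeProd, Equiv.piEquivPiSubtypeProd, hi]
  set ha : J → Fin n → ℝ := fun j => a ⟨τ j, (hp _).2 ⟨j, rfl⟩⟩ with hha
  have hfun : ∀ b, (fun j => e.symm (a, b) (τ j)) = ha := by
    intro b; funext j; exact h1 b j
  by_cases hc : ∀ i j, |a i j| ≤ 1
  swap
  · have : ∀ b, (adm n N τ).indicator
      (fun g => ((volume (hull 1 (fun j => g (τ j)))) ^ (N - Fintype.card J))⁻¹)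
      (e.symm (a, b)) = 0 := by
      intro b
      apply Set.indicator_of_notMem
      rintro ⟨hg, -, -⟩
      apply hc
      intro i j
      have := hg i.1 j
      rw [h2 b i.1 i.2] at this
      exact this
    simp_rw [this]
    simp
  have hamem : a ∈ Set.pi Set.univ
      (fun _ : {i // p i} => Set.Icc (fun _ : Fin n => (-1 : ℝ)) (fun _ => 1)) := by
    intro i _
    exact ⟨fun j => (abs_le.1 (hc i j)).1, fun j => (abs_le.1 (hc i j)).2⟩
  rw [Set.indicator_of_mem hamem]
  by_cases hv : volume (hull 1 ha) = 0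
  · have : ∀ b, (adm n N τ).indicator
      (fun g => ((volume (hull 1 (fun j => g (τ j)))) ^ (N - Fintype.card J))⁻¹)
      (e.symm (a, b)) = 0 := by
      intro b
      apply Set.indicator_of_notMem
      rintro ⟨-, -, hg⟩
      rw [hfun b] at hg
      exact hg hv
    simp_rw [this]
    simp
  have hvle : volume (hull 1 ha) ≤ 2 ^ n := vol_hull_le fun j k => hc _ _
  have hvtop : volume (hull 1 ha) ≠ ⊤ := ne_top_of_le_ne_top (by simp) hvle
  have hle : ∀ b, (adm n N τ).indicator
      (fun g => ((volume (hull 1 (fun j => g (τ j)))) ^ (N - Fintype.card J))⁻¹)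
      (e.symm (a, b)) ≤ (Set.pi Set.univ (fun _ : {i // ¬ p i} => hull (3 / 2) ha)).indicator
        (fun _ => ((volume (hull 1 ha)) ^ (N - Fintype.card J))⁻¹) b := by
    intro b
    by_cases hb : e.symm (a, b) ∈ adm n N τ
    · rw [Set.indicator_of_mem hb, Set.indicator_of_mem]
      · rw [hfun b]
      · intro i _
        have := hb.2.1 i.1
        rw [hfun b, h3 b i.1 i.2] at this
        exact this
    · rw [Set.indicator_of_notMem hb]
      exact zero_le
  refine (lintegral_mono hle).trans ?_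
  rw [lintegral_indicator_const
    (MeasurableSet.univ_pi fun _ => (hull_closed _ _).measurableSet)]
  rw [volume_pi_pi, Finset.prod_const, Finset.card_univ,
    vol_hull (show (0 : ℝ) < 3 / 2 by norm_num) ha]
  have hcard : Fintype.card {i // ¬ p i} = N - Fintype.card {i // p i} := by
    rw [Fintype.card_subtype_compl, Fintype.card_fin]
  have hcardJ : Fintype.card {i // p i} ≤ Fintype.card J := by
    have hsurj : Function.Surjective (fun j : J => (⟨τ j, (hp _).2 ⟨j, rfl⟩⟩ : {i // p i})) := by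
      rintro ⟨i, hi⟩
      obtain ⟨j, hj⟩ := (hp i).1 hi
      exact ⟨j, Subtype.ext hj⟩
    exact Fintype.card_le_of_surjective _ hsurj
  rw [hcard, mul_pow]
  have hsplit : N - Fintype.card {i // p i} =
      (N - Fintype.card J) + (Fintype.card J - Fintype.card {i // p i}) := by omega
  have h5 : (volume (hull 1 ha) ^ (N - Fintype.card J))⁻¹ *
      (ENNReal.ofReal ((3 / 2) ^ n) ^ (N - Fintype.card {i // p i}) *
        volume (hull 1 ha) ^ (N - Fintype.card {i // p i})) =
      ENNReal.ofReal ((3 / 2) ^ n) ^ (N - Fintype.card {i // p i}) *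
        volume (hull 1 ha) ^ (Fintype.card J - Fintype.card {i // p i}) := by
    conv_lhs => rw [hsplit, pow_add (volume (hull 1 ha)), ← hsplit]
    have h6 : volume (hull 1 ha) ^ (N - Fintype.card J) ≠ 0 := pow_ne_zero _ hv
    have h7 : volume (hull 1 ha) ^ (N - Fintype.card J) ≠ ⊤ := ENNReal.pow_ne_top hvtop
    rw [mul_left_comm, ← mul_assoc (volume (hull 1 ha) ^ (N - Fintype.card J))⁻¹,
      ENNReal.inv_mul_cancel h6 h7, one_mul]
  rw [h5]
  gcongr
  rw [← ENNReal.ofReal_pow (by positivity), ← pow_mul]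
  apply ENNReal.ofReal_le_ofReal
  apply pow_le_pow_right₀ (by norm_num)
  exact Nat.mul_le_mul_left _ (Nat.sub_le _ _)

lemma key_integral (τ : J → Fin N) (hJ : Fintype.card J ≤ N) :
    ∫⁻ g : Fin N → Fin n → ℝ, (adm n N τ).indicator
      (fun g => ((volume (hull 1 (fun j => g (τ j)))) ^ (N - Fintype.card J))⁻¹) g ≤
    ENNReal.ofReal ((3 / 2) ^ (n * N)) * (2 ^ n) ^ (Fintype.card J) := by
  classical
  let p : Fin N → Prop := fun i => ∃ j, τ j = i
  have mp := volume_preserving_piEquivPiSubtypeProd (fun _ : Fin N => Fin n → ℝ) p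
  rw [(mp.symm _).lintegral_map_equiv]
  refine (lintegral_prod_le _).trans ?_
  refine (lintegral_mono fun a => inner_bound τ hJ p (fun i => Iff.rfl) a).trans ?_
  rw [lintegral_indicator_const (MeasurableSet.univ_pi fun _ => measurableSet_Icc)]
  rw [volume_pi_pi, Finset.prod_const, Finset.card_univ, vol_cube]
  have hcardJ : Fintype.card {i // p i} ≤ Fintype.card J := by
    have hsurj : Function.Surjective (fun j : J => (⟨τ j, ⟨j, rfl⟩⟩ : {i // p i})) := by
      rintro ⟨i, j, hj⟩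
      exact ⟨j, Subtype.ext hj⟩
    exact Fintype.card_le_of_surjective _ hsurj
  rw [mul_assoc]
  gcongr
  rw [← pow_add, Nat.sub_add_cancel hcardJ]
end integral

/-- determinant of the square matrix with rows g (S k) -/
noncomputable def dt {N n : ℕ} (g : Fin N → Fin n → ℝ) (S : Fin n → Fin N) : ℝ :=
  (Matrix.of fun k => g (S k)).det

lemma exists_max_dt {N n : ℕ} (g : Fin N → Fin n → ℝ) (h : ∃ S, dt g S ≠ 0) :
    ∃ S, dt g S ≠ 0 ∧ ∀ i, ∃ t : Fin n → ℝ, (∀ k, |t k| ≤ 1) ∧ g i = ∑ k, t k • g (S k) := by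
  obtain ⟨S0, hS0⟩ := h
  obtain ⟨S, -, hS⟩ := Finset.exists_max_image (Finset.univ : Finset (Fin n → Fin N))
    (fun S => |dt g S|) ⟨S0, Finset.mem_univ _⟩
  have hne : dt g S ≠ 0 := by
    have := hS S0 (Finset.mem_univ _)
    have h1 : 0 < |dt g S0| := abs_pos.2 hS0
    exact abs_pos.1 (lt_of_lt_of_le h1 this)
  refine ⟨S, hne, fun i => ⟨fun k => dt g (Function.update S k i) / dt g S, ?_, ?_⟩⟩
  · intro k
    rw [abs_div, div_le_one (abs_pos.2 hne)]
    exact hS _ (Finset.mem_univ _)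
  · have h1 := Matrix.mulVec_cramer (Matrix.of fun k => g (S k)).transpose (g i)
    have h2 : ∀ k, (Matrix.cramer (Matrix.of fun k => g (S k)).transpose (g i)) k =
        dt g (Function.update S k i) := by
      intro k
      rw [Matrix.cramer_transpose_apply]
      unfold dt
      congr 1
      ext a b
      by_cases hak : a = k
      · subst hak
        simp [Matrix.updateRow_apply]
      · simp [Matrix.updateRow_apply, hak]
    rw [Matrix.det_transpose] at h1
    ext j
    have h3 := congrFun h1 j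
    simp only [Matrix.mulVec, dotProduct, Matrix.transpose_apply, Matrix.of_apply, h2,
      Pi.smul_apply, smul_eq_mul] at h3
    rw [Finset.sum_apply]
    simp only [Pi.smul_apply, smul_eq_mul]
    have h4 : (Matrix.of fun k => g (S k)).det = dt g S := rfl
    rw [h4] at h3
    have h5 : ∀ k, dt g (Function.update S k i) / dt g S * g (S k) j =
        (g (S k) j * dt g (Function.update S k i)) / dt g S := by intro k; ring
    simp_rw [h5]
    rw [← Finset.sum_div, h3]
    field_simp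

/-- index set: n vertices of maximal determinant and one representative for every cell -/
abbrev JJ (n : ℕ) := Fin n ⊕ (Fin n → Fin (4 * n + 1))

lemma floor_close {n : ℕ} (hn : 1 ≤ n) {s t : ℝ} (hs : |s| ≤ 1) (ht : |t| ≤ 1)
    (h : ⌊(s + 1) * (2 * n)⌋₊ = ⌊(t + 1) * (2 * n)⌋₊) : |s - t| ≤ 1 / (2 * n) := by
  have hn' : (0 : ℝ) < 2 * n := by positivity
  have hs1 := abs_le.1 hs
  have ht1 := abs_le.1 ht
  have h1 := Nat.floor_le (show 0 ≤ (s + 1) * (2 * n) by nlinarith)
  have h2 := Nat.lt_floor_add_one ((s + 1) * (2 * n))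
  have h3 := Nat.floor_le (show 0 ≤ (t + 1) * (2 * n) by nlinarith)
  have h4 := Nat.lt_floor_add_one ((t + 1) * (2 * n))
  rw [h] at h1 h2
  rw [le_div_iff₀ hn', ← abs_of_pos hn', ← abs_mul]
  rw [abs_le]
  constructor <;> nlinarith

lemma exists_cover {N n : ℕ} (hn : 1 ≤ n) (g : Fin N → Fin n → ℝ) (S : Fin n → Fin N)
    (h : ∀ i, ∃ t : Fin n → ℝ, (∀ k, |t k| ≤ 1) ∧ g i = ∑ k, t k • g (S k)) :
    ∃ τ : JJ n → Fin N, (∀ k, τ (Sum.inl k) = S k) ∧ ∀ i, g i ∈ hull (3 / 2) (fun j => g (τ j)) := by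
  classical
  choose t ht hg using h
  have hn' : (0 : ℝ) < 2 * n := by positivity
  have hlt : ∀ i k, ⌊(t i k + 1) * (2 * n)⌋₊ < 4 * n + 1 := by
    intro i k
    have h1 := abs_le.1 (ht i k)
    have h2 : ((t i k + 1) * (2 * n)) ≤ ((4 * n : ℕ) : ℝ) := by
      push_cast
      nlinarith
    have := Nat.floor_le_floor h2
    rw [Nat.floor_natCast] at this
    omega
  let cell : Fin N → (Fin n → Fin (4 * n + 1)) := fun i k => ⟨_, hlt i k⟩
  let rep : (Fin n → Fin (4 * n + 1)) → Fin N := fun c =>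
    if hc : ∃ i, cell i = c then hc.choose else S ⟨0, by omega⟩
  have hrep : ∀ i, cell (rep (cell i)) = cell i := by
    intro i
    have hc : ∃ i', cell i' = cell i := ⟨i, rfl⟩
    have : rep (cell i) = hc.choose := dif_pos hc
    rw [this]
    exact hc.choose_spec
  refine ⟨Sum.elim S rep, fun k => rfl, fun i => ?_⟩
  set i' := rep (cell i) with hi'
  have hclose : ∀ k, |t i k - t i' k| ≤ 1 / (2 * n) := by
    intro k
    refine floor_close hn (ht i k) (ht i' k) ?_
    have := congrFun (hrep i) k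
    have := congrArg Fin.val this
    exact this.symm
  refine ⟨Sum.elim (fun k => t i k - t i' k) (fun c => if c = cell i then 1 else 0), ?_, ?_⟩
  · rw [Fintype.sum_sum_type]
    simp only [Sum.elim_inl, Sum.elim_inr]
    have h1 : ∑ k : Fin n, |t i k - t i' k| ≤ 1 / 2 := by
      calc ∑ k : Fin n, |t i k - t i' k| ≤ ∑ k : Fin n, 1 / (2 * (n : ℝ)) :=
            Finset.sum_le_sum fun k _ => hclose k
        _ = 1 / 2 := by
            rw [Finset.sum_const, Finset.card_univ, Fintype.card_fin, nsmul_eq_mul]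
            field_simp
    have h2 : ∑ c : Fin n → Fin (4 * n + 1), |(if c = cell i then (1 : ℝ) else 0)| = 1 := by
      rw [Finset.sum_eq_single (cell i)]
      · simp
      · intro b _ hb
        simp [hb]
      · intro h; exact absurd (Finset.mem_univ _) h
    rw [h2]
    linarith
  · rw [Fintype.sum_sum_type]
    simp only [Sum.elim_inl, Sum.elim_inr]
    have h2 : ∑ c : Fin n → Fin (4 * n + 1), (if c = cell i then (1 : ℝ) else 0) • g (rep c) =
        g i' := by
      rw [Finset.sum_eq_single (cell i)]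
      · simp [hi']
      · intro b _ hb
        simp [hb]
      · intro h; exact absurd (Finset.mem_univ _) h
    rw [h2]
    simp_rw [sub_smul]
    rw [Finset.sum_sub_distrib, ← hg i, ← hg i']
    abel

/-- volume of the cross-polytope, in the form used below -/
noncomputable def beta (n : ℕ) : ENNReal := volume {c : Fin n → ℝ | ∑ j, |c j| ≤ 1}


lemma vol_hull_ge {N n : ℕ} (g : Fin N → Fin n → ℝ) (S : Fin n → Fin N) (τ : JJ n → Fin N)
    (hτ : ∀ k, τ (Sum.inl k) = S k) :
    ENNReal.ofReal |dt g S| * beta n ≤ volume (hull 1 (fun j => g (τ j))) := by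
  have h1 := Measure.addHaar_image_linearMap (volume : Measure (Fin n → ℝ))
    (Matrix.toLin' (Matrix.of fun k => g (S k)).transpose) {c : Fin n → ℝ | ∑ j, |c j| ≤ 1}
  rw [LinearMap.det_toLin', Matrix.det_transpose] at h1
  unfold dt beta
  rw [← h1]
  apply measure_mono
  rintro _ ⟨c, hc, rfl⟩
  refine ⟨Sum.elim c (fun _ => 0), ?_, ?_⟩
  · rw [Fintype.sum_sum_type]
    simpa using hc
  · rw [Fintype.sum_sum_type]
    simp only [Sum.elim_inl, Sum.elim_inr, zero_smul, Finset.sum_const_zero, add_zero, hτ]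
    ext j
    simp [Matrix.toLin'_apply, Matrix.mulVec, dotProduct, mul_comm]

def V1 (n N : ℕ) : (Fin N → Fin n → ℝ) ≃ᵐ (Fin n × Fin N → ℝ) where
  toFun g p := g p.2 p.1
  invFun h i j := h (j, i)
  left_inv _ := rfl
  right_inv _ := rfl
  measurable_toFun := by
    refine measurable_pi_lambda _ fun p => ?_
    exact (measurable_pi_apply p.1).comp (measurable_pi_apply p.2)
  measurable_invFun := by
    refine measurable_pi_lambda _ fun i => measurable_pi_lambda _ fun j => ?_
    exact measurable_pi_apply (j, i)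

lemma V1_mp (n N : ℕ) : MeasurePreserving (V1 n N) volume volume := by
  refine ⟨(V1 n N).measurable, ?_⟩
  symm
  refine Measure.pi_eq fun s hs => ?_
  rw [(V1 n N).map_apply]
  have : (V1 n N) ⁻¹' (Set.pi Set.univ s) =
      Set.pi Set.univ (fun i => Set.pi Set.univ (fun j => s (j, i))) := by
    ext g
    simp only [Set.mem_preimage, Set.mem_pi, Set.mem_univ, true_implies]
    constructor
    · intro h i j
      exact h (j, i)
    · intro h p
      exact h p.2 p.1
  rw [this, volume_pi_pi]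
  simp_rw [volume_pi_pi]
  rw [Fintype.prod_prod_type, Finset.prod_comm]

def V2 (n N : ℕ) : (Fin n → Fin N → ℝ) ≃ᵐ (Fin n × Fin N → ℝ) where
  toFun g p := g p.1 p.2
  invFun h j i := h (j, i)
  left_inv _ := rfl
  right_inv _ := rfl
  measurable_toFun := by
    refine measurable_pi_lambda _ fun p => ?_
    exact (measurable_pi_apply p.2).comp (measurable_pi_apply p.1)
  measurable_invFun := by
    refine measurable_pi_lambda _ fun i => measurable_pi_lambda _ fun j => ?_
    exact measurable_pi_apply (i, j)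

lemma V2_mp (n N : ℕ) : MeasurePreserving (V2 n N) volume volume := by
  refine ⟨(V2 n N).measurable, ?_⟩
  symm
  refine Measure.pi_eq fun s hs => ?_
  rw [(V2 n N).map_apply]
  have : (V2 n N) ⁻¹' (Set.pi Set.univ s) =
      Set.pi Set.univ (fun j => Set.pi Set.univ (fun i => s (j, i))) := by
    ext g
    simp only [Set.mem_preimage, Set.mem_pi, Set.mem_univ, true_implies]
    constructor
    · intro h j i
      exact h (j, i)
    · intro h p
      exact h p.1 p.2
  rw [this, volume_pi_pi]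
  simp_rw [volume_pi_pi]
  rw [Fintype.prod_prod_type]

lemma swap_lintegral (n N : ℕ) (f : (Fin N → Fin n → ℝ) → ENNReal) :
    ∫⁻ v : Fin n → E N, f (fun i j => v j i) = ∫⁻ g : Fin N → Fin n → ℝ, f g := by
  have m1 := (V1_mp n N).lintegral_map_equiv (fun h => f (fun i j => h (j, i)))
  have m2 := (V2_mp n N).lintegral_map_equiv (fun h => f (fun i j => h (j, i)))
  have hp : MeasurePreserving (fun (v : Fin n → E N) (j : Fin n) =>
      (MeasurableEquiv.toLp 2 (Fin N → ℝ)).symm (v j)) volume volume :=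
    volume_preserving_pi fun _ => EuclideanSpace.volume_preserving_symm_measurableEquiv_toLp (Fin N)
  have m3 := hp.lintegral_comp_emb
    ((MeasurableEquiv.piCongrRight fun _ : Fin n =>
      (MeasurableEquiv.toLp 2 (Fin N → ℝ)).symm).measurableEmbedding)
    (fun h : Fin n → Fin N → ℝ => f (fun i j => h j i))
  have e1 : (fun g : Fin N → Fin n → ℝ => f (fun i j => (V1 n N g) (j, i))) = f := by
    funext g; rfl
  rw [e1] at m1
  rw [← m1, m2]
  exact m3

lemma proj_formula {N n : ℕ} (v : Fin n → E N) (hv : LinearIndependent ℝ v) :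
    ∃ (b : Fin n → E N), (∀ k, ‖b k‖ = 1) ∧
      (Matrix.of fun j k => ⟪v j, b k⟫).det ≠ 0 ∧
      |(Matrix.of fun j k => ⟪v j, b k⟫).det| ≤ ∏ j, ‖v j‖ ∧
      ∀ K : Set (E N), volume ((fun x j => ⟪v j, x⟫) '' K : Set (Fin n → ℝ)) =
        ENNReal.ofReal |(Matrix.of fun j k => ⟪v j, b k⟫).det| *
          volume ((Submodule.span ℝ (Set.range v)).orthogonalProjectionOnto '' K) := by
  set F := Submodule.span ℝ (Set.range v) with hF
  have hmem : ∀ j, v j ∈ F := fun j => Submodule.subset_span ⟨j, rfl⟩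
  let vF : Fin n → F := fun j => ⟨v j, hmem j⟩
  have hfin : Module.finrank ℝ F = Fintype.card (Fin n) := finrank_span_eq_card hv
  let b : OrthonormalBasis (Fin n) ℝ F := InnerProductSpace.gramSchmidtOrthonormalBasis hfin vF
  have hbdet : b.toBasis.det vF = ∏ i, ⟪b i, vF i⟫ :=
    InnerProductSpace.gramSchmidtOrthonormalBasis_det hfin vF
  set M : Matrix (Fin n) (Fin n) ℝ := Matrix.of fun j k => ⟪v j, (b k : E N)⟫ with hM
  have hMt : M.det = b.toBasis.det vF := by
    rw [Module.Basis.det_apply, ← Matrix.det_transpose]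
    congr 1
    ext i j
    simp only [Matrix.transpose_apply, hM, Matrix.of_apply, Module.Basis.toMatrix_apply]
    rw [OrthonormalBasis.coe_toBasis_repr_apply, OrthonormalBasis.repr_apply_apply,
      real_inner_comm]
    rfl
  refine ⟨fun k => (b k : E N), ?_, ?_, ?_, ?_⟩
  · intro k
    exact b.orthonormal.1 k
  · intro h0
    obtain ⟨c, hc, hcM⟩ := Matrix.exists_vecMul_eq_zero_iff.2 h0
    have hwmem : ∑ j, c j • v j ∈ F := Submodule.sum_mem _ fun j _ => F.smul_mem _ (hmem j)
    have h1 : (⟨∑ j, c j • v j, hwmem⟩ : F) = 0 := by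
      refine b.toBasis.ext_elem fun k => ?_
      rw [OrthonormalBasis.coe_toBasis_repr_apply, OrthonormalBasis.repr_apply_apply,
        OrthonormalBasis.coe_toBasis_repr_apply, OrthonormalBasis.repr_apply_apply,
        inner_zero_right]
      have h5 : ⟪b k, (⟨∑ j, c j • v j, hwmem⟩ : F)⟫ = ⟪(b k : E N), ∑ j, c j • v j⟫ := rfl
      rw [h5, inner_sum]
      have h6 := congrFun hcM k
      simp only [Matrix.vecMul, dotProduct, Pi.zero_apply] at h6
      rw [← h6]
      refine Finset.sum_congr rfl fun j _ => ?_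
      rw [real_inner_smul_right, real_inner_comm]
      rfl
    have h2 : ∑ j, c j • v j = 0 := congrArg (Subtype.val : F → E N) h1
    apply hc
    funext j
    exact (Fintype.linearIndependent_iff.1 hv) c h2 j
  · show |M.det| ≤ _
    rw [hMt, hbdet, Finset.abs_prod]
    refine Finset.prod_le_prod (fun _ _ => abs_nonneg _) fun j _ => ?_
    refine (abs_real_inner_le_norm _ _).trans ?_
    have h1 : ‖b j‖ = 1 := b.orthonormal.1 j
    rw [h1, one_mul]
    rfl
  · intro K
    let e : F ≃ᵐ (Fin n → ℝ) := b.measurableEquiv.trans (MeasurableEquiv.toLp 2 (Fin n → ℝ)).symm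
    have he : MeasurePreserving e volume volume :=
      b.measurePreserving_measurableEquiv.trans
        (EuclideanSpace.volume_preserving_symm_measurableEquiv_toLp (Fin n))
    have h1 : ((fun x j => ⟪v j, x⟫) '' K : Set (Fin n → ℝ)) =
        (Matrix.toLin' M) '' (e '' (F.orthogonalProjectionOnto '' K)) := by
      rw [Set.image_image, Set.image_image]
      refine Set.image_congr fun x _ => ?_
      ext j
      rw [Matrix.toLin'_apply]
      simp only [Matrix.mulVec, dotProduct]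
      have h2 : ∀ k, e (F.orthogonalProjectionOnto x) k = ⟪(b k : E N), x⟫ := by
        intro k
        have : e (F.orthogonalProjectionOnto x) k = b.repr (F.orthogonalProjectionOnto x) k := rfl
        rw [this, OrthonormalBasis.repr_apply_apply]
        exact Submodule.inner_orthogonalProjectionOnto_eq_of_mem_left _ _
      simp_rw [h2]
      have h3 := b.sum_inner_mul_inner (vF j) (F.orthogonalProjectionOnto x)
      rw [Submodule.inner_orthogonalProjectionOnto_eq_of_mem_left] at h3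
      rw [show ⟪v j, x⟫ = ⟪(vF j : E N), x⟫ from rfl, ← h3]
      refine Finset.sum_congr rfl fun k _ => ?_
      rw [Submodule.inner_orthogonalProjectionOnto_eq_of_mem_left]
      rfl
    rw [h1, Measure.addHaar_image_linearMap, LinearMap.det_toLin']
    congr 1
    rw [MeasurableEquiv.image_eq_preimage_symm]
    exact (he.symm e).measure_preimage_equiv _

lemma det_bound {N n : ℕ} (g : Fin N → Fin n → ℝ) (v : Fin n → E N) (hg : ∀ i j, g i j = v j i)
    (S : Fin n → Fin N)
    (h : ∀ i, ∃ t : Fin n → ℝ, (∀ k, |t k| ≤ 1) ∧ g i = ∑ k, t k • g (S k))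
    (b : Fin n → E N) (hb : ∀ k, ‖b k‖ = 1) :
    |(Matrix.of fun j k => ⟪v j, b k⟫).det| ≤ |dt g S| * (n.factorial * (N : ℝ) ^ n) := by
  choose t ht hgt using h
  let W : Matrix (Fin n) (Fin n) ℝ := Matrix.of fun l k => ∑ i, t i l * b k i
  have hM : (Matrix.of fun j k => ⟪v j, b k⟫) = (Matrix.of fun l => g (S l)).transpose * W := by
    ext j k
    simp only [Matrix.of_apply, Matrix.mul_apply, Matrix.transpose_apply, W]
    rw [PiLp.inner_apply]
    simp_rw [Finset.mul_sum]
    rw [Finset.sum_comm]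
    refine Finset.sum_congr rfl fun i _ => ?_
    have h1 : v j i = ∑ l, t i l * g (S l) j := by
      rw [← hg, hgt i, Finset.sum_apply]
      simp
    have h2 : ⟪(v j).ofLp i, (b k).ofLp i⟫ = v j i * b k i := by
      simp [mul_comm]
    rw [h2, h1, Finset.sum_mul]
    refine Finset.sum_congr rfl fun l _ => ?_
    ring
  rw [hM, Matrix.det_mul, Matrix.det_transpose, abs_mul]
  have hW : |W.det| ≤ n.factorial * (N : ℝ) ^ n := by
    have hW' : ∀ l k, AbsoluteValue.abs (W l k) ≤ (N : ℝ) := by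
      intro l k
      simp only [AbsoluteValue.abs_apply, W, Matrix.of_apply]
      calc |∑ i, t i l * b k i| ≤ ∑ i, |t i l * b k i| := Finset.abs_sum_le_sum_abs _ _
        _ ≤ ∑ i : Fin N, (1 : ℝ) := by
            refine Finset.sum_le_sum fun i _ => ?_
            rw [abs_mul]
            have h1 := ht i l
            have h2 : |b k i| ≤ 1 := by
              rw [← hb k, ← Real.norm_eq_abs]
              exact PiLp.norm_apply_le _ _
            have := abs_nonneg (t i l)
            have := abs_nonneg (b k i)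
            nlinarith
        _ = N := by simp
    have := Matrix.det_le (A := W) (abv := AbsoluteValue.abs) hW'
    simpa using this
  exact mul_le_mul_of_nonneg_left hW (abs_nonneg _)

lemma exists_minor {N n : ℕ} (g : Fin N → Fin n → ℝ) (v : Fin n → E N)
    (hg : ∀ i j, g i j = v j i) (hv : LinearIndependent ℝ v) : ∃ S, dt g S ≠ 0 := by
  classical
  have htop : Submodule.span ℝ (Set.range g) = ⊤ := by
    by_contra hne
    obtain ⟨f, hf, hker⟩ := Submodule.exists_le_ker_of_lt_top _ (lt_top_iff_ne_top.2 hne)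
    apply hf
    let c : Fin n → ℝ := fun j => f (Pi.single j 1)
    have hfy : ∀ y : Fin n → ℝ, f y = ∑ j, y j * c j := by
      intro y
      conv_lhs => rw [← Finset.univ_sum_single y]
      rw [map_sum]
      refine Finset.sum_congr rfl fun j _ => ?_
      have : (Pi.single j (y j) : Fin n → ℝ) = y j • Pi.single j 1 := by
        ext k
        by_cases hk : k = j
        · subst hk; simp
        · simp [hk]
      rw [this, map_smul, smul_eq_mul]
    have h0 : ∑ j, c j • v j = 0 := by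
      ext i
      have h1 : f (g i) = 0 := LinearMap.mem_ker.1 (hker (Submodule.subset_span ⟨i, rfl⟩))
      rw [hfy] at h1
      rw [WithLp.ofLp_sum, Finset.sum_apply]
      simp only [PiLp.smul_apply, smul_eq_mul, PiLp.zero_apply]
      rw [← h1]
      refine Finset.sum_congr rfl fun j _ => ?_
      rw [hg, mul_comm]
    have hc := (Fintype.linearIndependent_iff.1 hv) c h0
    apply LinearMap.ext
    intro y
    rw [hfy]
    simp [hc]
  obtain ⟨b, hbs, hbspan, hbli⟩ := exists_linearIndependent ℝ (Set.range g)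
  have hbfin : b.Finite := (Set.finite_range g).subset hbs
  have : Fintype b := hbfin.fintype
  let B : Module.Basis b ℝ (Fin n → ℝ) := Module.Basis.mk hbli (by
    rw [Subtype.range_coe, hbspan, htop])
  have hcard : Fintype.card b = n := by
    have := Module.finrank_eq_card_basis B
    rw [Module.finrank_fin_fun] at this
    exact this.symm
  let e : Fin n ≃ b := (Fintype.equivFinOfCardEq hcard).symm
  have hS : ∀ k : Fin n, ∃ i, g i = (e k : Fin n → ℝ) := fun k => hbs (e k).2
  choose S hSg using hS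
  refine ⟨S, ?_⟩
  have hli : LinearIndependent ℝ (Matrix.of fun k => g (S k)).row := by
    have h1 : (Matrix.of fun k => g (S k)).row = (fun k => (e k : Fin n → ℝ)) := by
      funext k
      exact hSg k
    rw [h1]
    exact hbli.comp e e.injective
  rw [Matrix.linearIndependent_rows_iff_isUnit, Matrix.isUnit_iff_isUnit_det] at hli
  exact hli.ne_zero

/-- the product of n open unit balls of `ℝ^N` -/
def Balls (N n : ℕ) : Set (Fin n → E N) := Set.pi Set.univ fun _ => ball 0 1

/-- the orthogonal projection `P_F K` of a set `K` to a subspace `F`, as a subset of `F` -/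
noncomputable def shadow {V : Type} [NormedAddCommGroup V] [InnerProductSpace ℝ V]
    [FiniteDimensional ℝ V] (F : Submodule ℝ V) (K : Set V) : Set F :=
  F.orthogonalProjectionOnto '' K

/-- the volume `|P_F K|` of the orthogonal projection of `K`, in the subspace `F` -/
noncomputable def shadowVol {V : Type} [NormedAddCommGroup V] [InnerProductSpace ℝ V]
    [FiniteDimensional ℝ V] [MeasurableSpace V] [BorelSpace V] (F : Submodule ℝ V) (K : Set V) :
    ENNReal :=
  volume (shadow F K)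

/-- the volume, in the span of v, of the orthogonal projection of K onto the span of v
(so the n-dimensional volume of the projection when v is linearly independent) -/
noncomputable def projVol {N n : ℕ} (K : Set (E N)) (v : Fin n → E N) : ENNReal :=
  shadowVol (Submodule.span ℝ (Set.range v)) K

/-- the cross-polytope of radius r -/
def cross (N : ℕ) (r : ℝ) : Set (E N) := {x | ∑ i, |x i| ≤ r}

lemma ennreal_aux {x D R H c : ENNReal} {N m : ℕ} (hm : m ≤ N) (h1 : R * H ≤ D * x)
    (hD : D ≤ 1) (hDc : D ≤ c * H) (hH0 : H ≠ 0) (hHt : H ≠ ⊤) (hR0 : R ≠ 0) (hRt : R ≠ ⊤) :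
    x ^ (-(N : ℝ)) ≤ c ^ m * (R ^ N)⁻¹ * (H ^ (N - m))⁻¹ := by
  rw [ENNReal.rpow_neg, ENNReal.rpow_natCast]
  have h2 : R ^ N * H ^ N ≤ D ^ N * x ^ N := by
    rw [← mul_pow, ← mul_pow]
    exact pow_le_pow_left' h1 N
  have h3 : D ^ N ≤ (c * H) ^ m := by
    calc D ^ N ≤ D ^ m := pow_le_pow_right_of_le_one' hD hm
      _ ≤ _ := pow_le_pow_left' hDc m
  have hHm0 : H ^ m ≠ 0 := pow_ne_zero _ hH0
  have hHmt : H ^ m ≠ ⊤ := ENNReal.pow_ne_top hHt
  have h4 : R ^ N * H ^ (N - m) ≤ c ^ m * x ^ N := by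
    have h5 : (R ^ N * H ^ (N - m)) * H ^ m ≤ (c ^ m * x ^ N) * H ^ m := by
      calc (R ^ N * H ^ (N - m)) * H ^ m = R ^ N * H ^ N := by
            rw [mul_assoc, ← pow_add, Nat.sub_add_cancel hm]
        _ ≤ D ^ N * x ^ N := h2
        _ ≤ (c * H) ^ m * x ^ N := by gcongr
        _ = (c ^ m * x ^ N) * H ^ m := by rw [mul_pow]; ring
    exact (ENNReal.mul_le_mul_iff_left hHm0 hHmt).1 h5
  set a := R ^ N * H ^ (N - m) with ha
  have ha0 : a ≠ 0 := mul_ne_zero (pow_ne_zero _ hR0) (pow_ne_zero _ hH0)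
  have hat : a ≠ ⊤ := ENNReal.mul_ne_top (ENNReal.pow_ne_top hRt) (ENNReal.pow_ne_top hHt)
  have hinv : (R ^ N)⁻¹ * (H ^ (N - m))⁻¹ = a⁻¹ := by
    rw [ha, ENNReal.mul_inv (Or.inl (pow_ne_zero _ hR0)) (Or.inl (ENNReal.pow_ne_top hRt))]
  rw [mul_assoc, hinv]
  by_cases hb0 : x ^ N = 0
  · rw [hb0, mul_zero] at h4
    exact absurd (le_antisymm h4 zero_le) ha0
  by_cases hbt : x ^ N = ⊤
  · rw [hbt, ENNReal.inv_top]; exact zero_le
  calc (x ^ N)⁻¹ = (x ^ N)⁻¹ * (a * a⁻¹) := by rw [ENNReal.mul_inv_cancel ha0 hat, mul_one]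
    _ = (x ^ N)⁻¹ * a * a⁻¹ := (mul_assoc _ _ _).symm
    _ ≤ (x ^ N)⁻¹ * (c ^ m * x ^ N) * a⁻¹ := by gcongr
    _ = c ^ m * ((x ^ N)⁻¹ * x ^ N) * a⁻¹ := by ring
    _ = c ^ m * a⁻¹ := by rw [ENNReal.inv_mul_cancel hb0 hbt, mul_one]

lemma hull_sub_image {J : Type*} [Fintype J] {N n : ℕ} (v : Fin n → E N) (τ : J → Fin N) (r : ℝ) :
    hull r (fun j k => v k (τ j)) ⊆ ((fun x j => ⟪v j, x⟫) '' cross N r : Set (Fin n → ℝ)) := by
  classical
  rintro _ ⟨c, hc, rfl⟩
  refine ⟨∑ j, c j • EuclideanSpace.single (τ j) (1 : ℝ), ?_, ?_⟩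
  · show ∑ i, |(∑ j, c j • EuclideanSpace.single (τ j) (1 : ℝ) : E N) i| ≤ r
    have h1 : ∀ i, (∑ j, c j • EuclideanSpace.single (τ j) (1 : ℝ) : E N) i =
        ∑ j, c j * (if i = τ j then 1 else 0) := by
      intro i
      rw [WithLp.ofLp_sum, Finset.sum_apply]
      refine Finset.sum_congr rfl fun j _ => ?_
      simp
    simp_rw [h1]
    calc ∑ i, |∑ j, c j * (if i = τ j then (1 : ℝ) else 0)|
        ≤ ∑ i, ∑ j, |c j| * (if i = τ j then (1 : ℝ) else 0) := by
          refine Finset.sum_le_sum fun i _ => ?_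
          refine (Finset.abs_sum_le_sum_abs _ _).trans ?_
          refine Finset.sum_le_sum fun j _ => ?_
          rw [abs_mul]
          split_ifs <;> simp
      _ = ∑ j, |c j| := by
          rw [Finset.sum_comm]
          refine Finset.sum_congr rfl fun j _ => ?_
          simp
      _ ≤ r := hc
  · ext k
    simp only [inner_sum, real_inner_smul_right, Finset.sum_apply, Pi.smul_apply, smul_eq_mul]
    refine Finset.sum_congr rfl fun j _ => ?_
    rw [EuclideanSpace.inner_single_right]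
    simp

/-- the constant c' -/
noncomputable def cc (N n : ℕ) : ENNReal := ENNReal.ofReal (n.factorial * (N : ℝ) ^ n) / beta n

lemma beta_pos (n : ℕ) : beta n ≠ 0 := by
  unfold beta
  have h1 : IsOpen {c : Fin n → ℝ | ∑ j, |c j| < 1} :=
    isOpen_lt (by fun_prop) continuous_const
  have h2 : (0 : Fin n → ℝ) ∈ {c : Fin n → ℝ | ∑ j, |c j| < 1} := by simp
  have h3 := h1.measure_pos volume ⟨_, h2⟩
  refine (lt_of_lt_of_le h3 (measure_mono ?_)).ne'
  intro c hc
  have hc' : ∑ j, |c j| < 1 := hc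
  exact hc'.le

lemma beta_ne_top (n : ℕ) : beta n ≠ ⊤ := (compact_weights 1).measure_lt_top.ne

lemma pointwise_bound {N n : ℕ} (hn : 1 ≤ n) (hN : Fintype.card (JJ n) ≤ N) {r : ℝ} (hr : 0 < r)
    (v : Fin n → E N) (hv : LinearIndependent ℝ v) (hvB : v ∈ Balls N n) :
    (projVol (cross N r) v) ^ (-(N : ℝ)) ≤
      ∑ τ : JJ n → Fin N, (cc N n ^ Fintype.card (JJ n) * ((ENNReal.ofReal (r ^ n)) ^ N)⁻¹) *
        (adm n N τ).indicator
          (fun g => ((volume (hull 1 (fun j => g (τ j)))) ^ (N - Fintype.card (JJ n)))⁻¹)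
          (fun i j => v j i) := by
  classical
  have hnorm : ∀ j, ‖v j‖ ≤ 1 := by
    intro j
    have := hvB j (Set.mem_univ _)
    rw [mem_ball, dist_zero_right] at this
    exact this.le
  obtain ⟨b, hb, hdet0, hdet1, hvol⟩ := proj_formula v hv
  set g : Fin N → Fin n → ℝ := fun i j => v j i with hg
  obtain ⟨S, hS0, hS⟩ := exists_max_dt g (exists_minor g v (fun _ _ => rfl) hv)
  obtain ⟨τ, hτS, hτ⟩ := exists_cover hn g S hS
  set δ : ℝ := |(Matrix.of fun j k => ⟪v j, b k⟫).det| with hδ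
  have hδ1 : δ ≤ 1 := hdet1.trans (Finset.prod_le_one (fun j _ => norm_nonneg _) fun j _ => hnorm j)
  have hδb := det_bound g v (fun _ _ => rfl) S hS b hb
  rw [← hδ] at hδb
  set H := volume (hull 1 (fun j => g (τ j))) with hH
  have hHge := vol_hull_ge g S τ hτS
  rw [← hH] at hHge
  have hgle : ∀ i j, |g i j| ≤ 1 := by
    intro i j
    refine le_trans ?_ (hnorm j)
    rw [← Real.norm_eq_abs]
    exact PiLp.norm_apply_le (v j) i
  have hHt : H ≠ ⊤ := ne_top_of_le_ne_top (by simp) (vol_hull_le (h := fun j => g (τ j))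
    fun j k => hgle _ _)
  have hH0 : H ≠ 0 := by
    intro h0
    rw [h0] at hHge
    have := le_antisymm hHge zero_le
    rw [mul_eq_zero] at this
    rcases this with h | h
    · rw [ENNReal.ofReal_eq_zero] at h
      exact hS0 (abs_eq_zero.1 (le_antisymm h (abs_nonneg _)))
    · exact beta_pos n h
  have hmem : g ∈ adm n N τ := ⟨hgle, hτ, hH0⟩
  have hterm : (projVol (cross N r) v) ^ (-(N : ℝ)) ≤
      (cc N n ^ Fintype.card (JJ n) * ((ENNReal.ofReal (r ^ n)) ^ N)⁻¹) *
        (adm n N τ).indicator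
          (fun g => ((volume (hull 1 (fun j => g (τ j)))) ^ (N - Fintype.card (JJ n)))⁻¹) g := by
    rw [Set.indicator_of_mem hmem]
    refine ennreal_aux (D := ENNReal.ofReal δ) hN ?_ ?_ ?_ hH0 hHt ?_ ENNReal.ofReal_ne_top
    · have h1 := hvol (cross N r)
      unfold projVol shadowVol shadow
      rw [← h1, ← vol_hull hr]
      exact measure_mono (hull_sub_image v τ r)
    · rw [← ENNReal.ofReal_one]
      exact ENNReal.ofReal_le_ofReal hδ1
    · have h1 : ENNReal.ofReal |dt g S| ≤ H / beta n :=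
        (ENNReal.le_div_iff_mul_le (Or.inl (beta_pos n)) (Or.inl (beta_ne_top n))).2 hHge
      calc ENNReal.ofReal δ ≤ ENNReal.ofReal (|dt g S| * (n.factorial * (N : ℝ) ^ n)) :=
            ENNReal.ofReal_le_ofReal hδb
        _ = ENNReal.ofReal |dt g S| * ENNReal.ofReal (n.factorial * (N : ℝ) ^ n) :=
            ENNReal.ofReal_mul (abs_nonneg _)
        _ ≤ (H / beta n) * ENNReal.ofReal (n.factorial * (N : ℝ) ^ n) := by gcongr
        _ = cc N n * H := by
            unfold cc
            rw [div_eq_mul_inv, div_eq_mul_inv]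
            ring
    · exact (ENNReal.ofReal_pos.2 (by positivity)).ne'
  refine hterm.trans ?_
  exact Finset.single_le_sum (f := fun τ : JJ n → Fin N =>
    (cc N n ^ Fintype.card (JJ n) * ((ENNReal.ofReal (r ^ n)) ^ N)⁻¹) *
        (adm n N τ).indicator
          (fun g => ((volume (hull 1 (fun j => g (τ j)))) ^ (N - Fintype.card (JJ n)))⁻¹) g)
    (fun _ _ => zero_le) (Finset.mem_univ τ)

lemma measurable_term {J : Type*} [Fintype J] (n N : ℕ) (τ : J → Fin N) (m : ℕ) :
    Measurable ((adm n N τ).indicator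
      (fun g => ((volume (hull 1 (fun j => g (τ j)))) ^ m)⁻¹)) := by
  have hcont : Continuous fun g : Fin N → Fin n → ℝ => (fun j => g (τ j)) := by fun_prop
  have hvol : Measurable fun g : Fin N → Fin n → ℝ => volume (hull 1 (fun j => g (τ j))) :=
    (measurable_vol_hull 1).comp hcont.measurable
  refine Measurable.indicator (hvol.pow_const m).inv ?_
  have h1 : MeasurableSet {g : Fin N → Fin n → ℝ | ∀ i j, |g i j| ≤ 1} := by
    have : {g : Fin N → Fin n → ℝ | ∀ i j, |g i j| ≤ 1} = ⋂ i, ⋂ j, {g | |g i j| ≤ 1} := by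
      ext g; simp
    rw [this]
    exact MeasurableSet.iInter fun i => MeasurableSet.iInter fun j =>
      (isClosed_le (by fun_prop) continuous_const).measurableSet
  have h2 : MeasurableSet {g : Fin N → Fin n → ℝ |
      ∀ i, g i ∈ hull (3 / 2) (fun j => g (τ j))} := by
    have : {g : Fin N → Fin n → ℝ | ∀ i, g i ∈ hull (3 / 2) (fun j => g (τ j))} =
        ⋂ i, {g | g i ∈ hull (3 / 2) (fun j => g (τ j))} := by
      ext g; simp
    rw [this]
    refine MeasurableSet.iInter fun i => IsClosed.measurableSet ?_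
    have hc : Continuous fun g : Fin N → Fin n → ℝ => ((fun j => g (τ j)), g i) :=
      hcont.prodMk (continuous_apply i)
    exact (hull_graph_closed (J := J) (n := n) (3 / 2)).preimage hc
  have h3 : MeasurableSet {g : Fin N → Fin n → ℝ | volume (hull 1 (fun j => g (τ j))) ≠ 0} :=
    (hvol (measurableSet_singleton 0)).compl
  exact h1.inter (h2.inter h3)

lemma measurableSet_Balls (N n : ℕ) : MeasurableSet (Balls N n) :=
  MeasurableSet.univ_pi fun _ => measurableSet_ball

lemma ae_indep {N n : ℕ} (hnN : n ≤ N) : ∀ᵐ v : Fin n → E N, LinearIndependent ℝ v := by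
  rw [ae_iff]
  exact null_dep N n hnN

lemma integral_bound {N n : ℕ} (hn : 1 ≤ n) (hN : Fintype.card (JJ n) ≤ N) {r : ℝ} (hr : 0 < r) :
    ∫⁻ v in Balls N n, (projVol (cross N r) v) ^ (-(N : ℝ)) ≤
      (N : ENNReal) ^ Fintype.card (JJ n) *
        ((cc N n ^ Fintype.card (JJ n) * ((ENNReal.ofReal (r ^ n)) ^ N)⁻¹) *
        (ENNReal.ofReal ((3 / 2) ^ (n * N)) * (2 ^ n) ^ Fintype.card (JJ n))) := by
  classical
  have hnN : n ≤ N := by
    have : Fintype.card (JJ n) = n + Fintype.card (Fin n → Fin (4 * n + 1)) := by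
      rw [Fintype.card_sum, Fintype.card_fin]
    omega
  let F : (Fin N → Fin n → ℝ) → ENNReal := fun g =>
    ∑ τ : JJ n → Fin N, (cc N n ^ Fintype.card (JJ n) * ((ENNReal.ofReal (r ^ n)) ^ N)⁻¹) *
        (adm n N τ).indicator
          (fun g => ((volume (hull 1 (fun j => g (τ j)))) ^ (N - Fintype.card (JJ n)))⁻¹) g
  calc ∫⁻ v in Balls N n, (projVol (cross N r) v) ^ (-(N : ℝ))
      ≤ ∫⁻ v in Balls N n, F (fun i j => v j i) := by
        refine lintegral_mono_ae ?_
        filter_upwards [ae_restrict_mem (measurableSet_Balls N n),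
          ae_restrict_of_ae (ae_indep hnN)] with v hvB hv
        exact pointwise_bound hn hN hr v hv hvB
    _ ≤ ∫⁻ v : Fin n → E N, F (fun i j => v j i) := setLIntegral_le_lintegral _ _
    _ = ∫⁻ g, F g := swap_lintegral n N F
    _ = ∑ τ : JJ n → Fin N, (cc N n ^ Fintype.card (JJ n) * ((ENNReal.ofReal (r ^ n)) ^ N)⁻¹) *
          ∫⁻ g, (adm n N τ).indicator
          (fun g => ((volume (hull 1 (fun j => g (τ j)))) ^ (N - Fintype.card (JJ n)))⁻¹) g := by
        rw [lintegral_finsetSum _ fun τ _ => (measurable_term n N τ _).const_mul _]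
        refine Finset.sum_congr rfl fun τ _ => ?_
        rw [lintegral_const_mul _ (measurable_term n N τ _)]
    _ ≤ ∑ τ : JJ n → Fin N, (cc N n ^ Fintype.card (JJ n) * ((ENNReal.ofReal (r ^ n)) ^ N)⁻¹) *
          (ENNReal.ofReal ((3 / 2) ^ (n * N)) * (2 ^ n) ^ Fintype.card (JJ n)) := by
        refine Finset.sum_le_sum fun τ _ => ?_
        gcongr
        exact key_integral τ hN
    _ = _ := by
        rw [Finset.sum_const, Finset.card_univ, Fintype.card_fun, Fintype.card_fin, nsmul_eq_mul,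
          Nat.cast_pow]

lemma volume_Balls (N n : ℕ) : volume (Balls N n) = (volume (ball (0 : E N) 1)) ^ n := by
  unfold Balls
  rw [volume_pi_pi, Finset.prod_const, Finset.card_univ, Fintype.card_fin]

/-- projections of a ball -/
lemma projVol_ball {N k : ℕ} (hk : 1 ≤ k) {ρ : ℝ} (v : Fin (2 * k) → E N)
    (hv : LinearIndependent ℝ v) :
    projVol (closedBall (0 : E N) ρ) v ≤
      ENNReal.ofReal ρ ^ (2 * k) * ENNReal.ofReal (Real.pi ^ k / k.factorial) := by
  unfold projVol shadowVol shadow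
  set F := Submodule.span ℝ (Set.range v) with hF
  have hfin : Module.finrank ℝ F = 2 * k := by
    rw [hF, finrank_span_eq_card hv, Fintype.card_fin]
  have hnt : Nontrivial F := Module.nontrivial_of_finrank_pos (R := ℝ) (by omega)
  calc volume (F.orthogonalProjectionOnto '' closedBall 0 ρ) ≤ volume (closedBall (0 : F) ρ) := by
        apply measure_mono
        rintro _ ⟨x, hx, rfl⟩
        rw [mem_closedBall, dist_zero_right] at hx ⊢
        exact (F.norm_orthogonalProjectionOnto_apply_le x).trans hx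
    _ = _ := by
        rw [InnerProductSpace.volume_closedBall_of_dim_even hfin, hfin]

/-- The law of `span v`, `v` uniform in the `n`-th power of the unit ball, is invariant under
every linear isometry of `ℝ^N`; so it is the rotation-invariant (Haar) probability measure of the
Grassmannian (`span v` has dimension `n` for almost every `v`, see `ae_indep`). -/
lemma law_invariant {N n : ℕ} (U : E N ≃ₗᵢ[ℝ] E N) (f : Submodule ℝ (E N) → ENNReal) :
    ∫⁻ v in Balls N n, f ((Submodule.span ℝ (Set.range v)).map U.toLinearEquiv.toLinearMap) =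
      ∫⁻ v in Balls N n, f (Submodule.span ℝ (Set.range v)) := by
  have hT : MeasurePreserving (fun (v : Fin n → E N) i => U (v i)) volume volume :=
    volume_preserving_pi fun _ => U.measurePreserving
  have hemb : MeasurableEmbedding (fun (v : Fin n → E N) i => U (v i)) :=
    (MeasurableEquiv.piCongrRight fun _ : Fin n =>
      U.toHomeomorph.toMeasurableEquiv).measurableEmbedding
  have h := hT.setLIntegral_comp_preimage_emb hemb
    (fun w => f (Submodule.span ℝ (Set.range w))) (Balls N n)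
  have h2 : (fun (v : Fin n → E N) i => U (v i)) ⁻¹' (Balls N n) = Balls N n := by
    ext v
    simp [Balls, Set.mem_pi]
  rw [h2] at h
  rw [← h]
  refine lintegral_congr fun v => ?_
  congr 1
  rw [Submodule.map_span, ← Set.range_comp]
  rfl

/-- `Φ_[n](K) = (∫_{G_{N,n}} |P_F K|^{-N} dμ(F))^{-1/(nN)}`.  The average over the Grassmannian
`G_{N,n}` with its rotation-invariant probability measure `μ` is written as the average, over
`v = (v_1, …, v_n)` uniform in the `n`-th power of the unit ball of `ℝ^N`, of the function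
`F ↦ |P_F K|^{-N}` at `F = span v`: the law of `span v` is rotation invariant (`law_invariant`)
and `span v` has dimension `n` for almost all `v` (`ae_indep`). -/
noncomputable def Phi (N n : ℕ) (K : Set (E N)) : ENNReal :=
  ((∫⁻ v in Balls N n, (projVol K v) ^ (-(N : ℝ))) / volume (Balls N n)) ^
    (-(1 / ((n : ℝ) * (N : ℝ))))

lemma rpow_compare {c A B : ENNReal} {p : ℕ} (hp : 0 < p) (hc0 : c ≠ 0) (hct : c ≠ ⊤)
    (h : c ^ p * A < B) : c * B ^ (-(1 / (p : ℝ))) < A ^ (-(1 / (p : ℝ))) := by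
  have hp' : (0 : ℝ) < p := by exact_mod_cast hp
  have hs : (0 : ℝ) < 1 / (p : ℝ) := by positivity
  rw [ENNReal.rpow_neg, ENNReal.rpow_neg]
  have h1 : (c ^ p * A) ^ (1 / (p : ℝ)) < B ^ (1 / (p : ℝ)) := ENNReal.rpow_lt_rpow h hs
  rw [ENNReal.mul_rpow_of_nonneg _ _ hs.le, ← ENNReal.rpow_natCast, ← ENNReal.rpow_mul,
    mul_one_div_cancel hp'.ne', ENNReal.rpow_one] at h1
  set a := A ^ (1 / (p : ℝ))
  set b := B ^ (1 / (p : ℝ))
  have hb0 : b ≠ 0 := (lt_of_le_of_lt zero_le h1).ne'
  have hat : a ≠ ⊤ := by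
    intro hat
    rw [hat, ENNReal.mul_top hc0] at h1
    exact not_top_lt h1
  by_cases ha0 : a = 0
  · rw [ha0, ENNReal.inv_zero]
    exact ENNReal.mul_lt_top (lt_top_iff_ne_top.2 hct)
      (ENNReal.inv_lt_top.2 (pos_iff_ne_zero.2 hb0))
  by_cases hbt : b = ⊤
  · rw [hbt, ENNReal.inv_top, mul_zero]
    exact ENNReal.inv_pos.2 hat
  rw [← div_eq_mul_inv, ENNReal.div_lt_iff (Or.inl hb0) (Or.inl hbt), mul_comm a⁻¹,
    ← div_eq_mul_inv, ENNReal.lt_div_iff_mul_lt (Or.inl ha0) (Or.inl hat)]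
  exact h1

lemma vol_l1_ball (N : ℕ) (hN : 1 ≤ N) {r : ℝ} (hr : 0 ≤ r) :
    volume {x : Fin N → ℝ | ∑ i, |x i| ≤ r} = ENNReal.ofReal (r ^ N * (2 ^ N / N.factorial)) := by
  have : Nonempty (Fin N) := ⟨⟨0, hN⟩⟩
  have h := MeasureTheory.volume_sum_rpow_le (Fin N) (p := 1) le_rfl r
  simp only [Real.rpow_one, div_one, Fintype.card_fin] at h
  rw [h, Real.Gamma_nat_eq_factorial, show (1 : ℝ) + 1 = 2 by norm_num, Real.Gamma_two, mul_one,
    ← ENNReal.ofReal_pow hr, ← ENNReal.ofReal_mul (by positivity)]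

lemma beta_eq (n : ℕ) (hn : 1 ≤ n) : beta n = ENNReal.ofReal (2 ^ n / n.factorial) := by
  unfold beta
  rw [vol_l1_ball n hn zero_le_one, one_pow, one_mul]

lemma cc_eq (N n : ℕ) (hn : 1 ≤ n) :
    cc N n = ENNReal.ofReal ((n.factorial : ℝ) ^ 2 * (N : ℝ) ^ n / 2 ^ n) := by
  unfold cc
  rw [beta_eq n hn, ← ENNReal.ofReal_div_of_pos (by positivity)]
  congr 1
  have : (n.factorial : ℝ) ≠ 0 := by positivity
  field_simp

lemma vol_cross (N : ℕ) (hN : 1 ≤ N) {r : ℝ} (hr : 0 ≤ r) :
    volume (cross N r) = ENNReal.ofReal (r ^ N * (2 ^ N / N.factorial)) := by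
  rw [← vol_l1_ball N hN hr]
  have h := (EuclideanSpace.volume_preserving_symm_measurableEquiv_toLp (Fin N)).measure_preimage_equiv
    {x : Fin N → ℝ | ∑ i, |x i| ≤ r}
  exact h

lemma cross_compact (N : ℕ) (r : ℝ) : IsCompact (cross N r) := by
  refine Metric.isCompact_of_isClosed_isBounded ?_ ?_
  · exact isClosed_le (by fun_prop) continuous_const
  · refine (Metric.isBounded_iff_subset_closedBall (0 : E N)).2 ⟨r, ?_⟩
    intro x hx
    rw [mem_closedBall, dist_zero_right, EuclideanSpace.norm_eq]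
    have hx' : ∑ i, |x i| ≤ r := hx
    have hr : 0 ≤ r := le_trans (Finset.sum_nonneg fun i _ => abs_nonneg _) hx'
    refine Real.sqrt_le_iff.2 ⟨hr, ?_⟩
    calc ∑ i, ‖x i‖ ^ 2 ≤ (∑ i, ‖x i‖) ^ 2 :=
          Finset.sum_sq_le_sq_sum_of_nonneg fun i _ => norm_nonneg _
      _ ≤ r ^ 2 := by
          refine pow_le_pow_left₀ (Finset.sum_nonneg fun i _ => norm_nonneg _) ?_ 2
          exact hx'

lemma cross_convex (N : ℕ) (r : ℝ) : Convex ℝ (cross N r) := by
  intro x hx y hy a b ha hb hab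
  have hx' : ∑ i, |x i| ≤ r := hx
  have hy' : ∑ i, |y i| ≤ r := hy
  show ∑ i, |(a • x + b • y) i| ≤ r
  calc ∑ i, |(a • x + b • y) i| ≤ ∑ i, (a * |x i| + b * |y i|) := by
        refine Finset.sum_le_sum fun i _ => ?_
        simp only [PiLp.add_apply, PiLp.smul_apply, smul_eq_mul]
        refine (abs_add_le _ _).trans ?_
        rw [abs_mul, abs_mul, abs_of_nonneg ha, abs_of_nonneg hb]
    _ = a * ∑ i, |x i| + b * ∑ i, |y i| := by
        rw [Finset.sum_add_distrib, Finset.mul_sum, Finset.mul_sum]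
    _ ≤ a * r + b * r := by gcongr
    _ = r := by rw [← add_mul, hab, one_mul]

lemma cross_interior (N : ℕ) {r : ℝ} (hr : 0 < r) : (interior (cross N r)).Nonempty := by
  have h1 : IsOpen {x : E N | ∑ i, |x i| < r} := isOpen_lt (by fun_prop) continuous_const
  refine ⟨0, ?_⟩
  refine interior_maximal (s := cross N r) ?_ h1 ?_
  · intro x hx
    have hx' : ∑ i, |x i| < r := hx
    exact hx'.le
  · simpa using hr

lemma cross_barycenter (N : ℕ) (r : ℝ) : ∫ x in cross N r, x = 0 := by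
  have hmp : MeasurePreserving (fun x : E N => -x) volume volume :=
    Measure.measurePreserving_neg _
  have h1 : ∫ x in (fun x : E N => -x) ⁻¹' (cross N r), -x = ∫ x in cross N r, x :=
    hmp.setIntegral_preimage_emb (MeasurableEquiv.neg (E N)).measurableEmbedding (fun x => x) _
  have h2 : (fun x : E N => -x) ⁻¹' (cross N r) = cross N r := by
    ext x
    show (∑ i, |(-x) i| ≤ r) ↔ (∑ i, |x i| ≤ r)
    simp
  rw [h2, integral_neg] at h1
  have h3 : (2 : ℝ) • ∫ x in cross N r, x = 0 := by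
    rw [two_smul]
    nth_rewrite 1 [← h1]
    simp
  exact (smul_eq_zero.1 h3).resolve_left two_ne_zero

lemma cross_sub_ball (N : ℕ) (r : ℝ) : cross N r ⊆ closedBall (0 : E N) r := by
  intro x hx
  rw [mem_closedBall, dist_zero_right, EuclideanSpace.norm_eq]
  have hx' : ∑ i, |x i| ≤ r := hx
  have hr : 0 ≤ r := le_trans (Finset.sum_nonneg fun i _ => abs_nonneg _) hx'
  refine Real.sqrt_le_iff.2 ⟨hr, ?_⟩
  calc ∑ i, ‖x i‖ ^ 2 ≤ (∑ i, ‖x i‖) ^ 2 :=
        Finset.sum_sq_le_sq_sum_of_nonneg fun i _ => norm_nonneg _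
    _ ≤ r ^ 2 := by
        refine pow_le_pow_left₀ (Finset.sum_nonneg fun i _ => norm_nonneg _) ?_ 2
        exact hx'

/-- lower bound for the average for a set contained in a ball -/
lemma average_lower {N k : ℕ} (hk : 1 ≤ k) (hkN : 2 * k ≤ N) {ρ : ℝ} (hρ : 0 < ρ)
    {K : Set (E N)} (hK : K ⊆ closedBall 0 ρ) :
    ENNReal.ofReal (((ρ ^ (2 * k) * (Real.pi ^ k / k.factorial)) ^ N)⁻¹) ≤
      (∫⁻ v in Balls N (2 * k), (projVol K v) ^ (-(N : ℝ))) / volume (Balls N (2 * k)) := by
  have hpi := Real.pi_pos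
  have hV0 : volume (Balls N (2 * k)) ≠ 0 := by
    rw [volume_Balls]
    exact pow_ne_zero _ (measure_ball_pos _ _ one_pos).ne'
  have hVt : volume (Balls N (2 * k)) ≠ ⊤ := by
    rw [volume_Balls]
    exact ENNReal.pow_ne_top measure_ball_lt_top.ne
  rw [ENNReal.le_div_iff_mul_le (Or.inl hV0) (Or.inl hVt), ← setLIntegral_const]
  refine lintegral_mono_ae ?_
  filter_upwards [ae_restrict_of_ae (ae_indep hkN)] with v hv
  have h1 : projVol K v ≤ ENNReal.ofReal (ρ ^ (2 * k) * (Real.pi ^ k / k.factorial)) := by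
    calc projVol K v ≤ projVol (closedBall (0 : E N) ρ) v :=
          measure_mono (Set.image_mono hK)
      _ ≤ _ := projVol_ball hk v hv
      _ = _ := by
          rw [← ENNReal.ofReal_pow hρ.le, ← ENNReal.ofReal_mul (by positivity)]
  rw [ENNReal.rpow_neg, ENNReal.rpow_natCast, ENNReal.ofReal_inv_of_pos (by positivity),
    ENNReal.ofReal_pow (by positivity)]
  exact ENNReal.inv_le_inv.2 (pow_le_pow_left' h1 N)

lemma bookkeeping (N n m : ℕ) {c r : ℝ} (hc : 0 ≤ c) (hr : 0 < r) :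
    (N : ENNReal) ^ m * ((ENNReal.ofReal c ^ m * ((ENNReal.ofReal (r ^ n)) ^ N)⁻¹) *
      (ENNReal.ofReal ((3 / 2) ^ (n * N)) * (2 ^ n) ^ m)) =
    ENNReal.ofReal ((N : ℝ) ^ m * ((c ^ m * ((r ^ n) ^ N)⁻¹) *
      ((3 / 2) ^ (n * N) * (2 ^ n) ^ m))) := by
  have e1 : (N : ENNReal) ^ m = ENNReal.ofReal ((N : ℝ) ^ m) := by
    rw [ENNReal.ofReal_pow (Nat.cast_nonneg N), ENNReal.ofReal_natCast]
  have e2 : ENNReal.ofReal c ^ m = ENNReal.ofReal (c ^ m) := (ENNReal.ofReal_pow hc m).symm
  have e3 : ((ENNReal.ofReal (r ^ n)) ^ N)⁻¹ = ENNReal.ofReal (((r ^ n) ^ N)⁻¹) := by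
    rw [ENNReal.ofReal_inv_of_pos (by positivity),
      ENNReal.ofReal_pow (pow_nonneg hr.le n) N]
  have e4 : (((2 : ENNReal) ^ n) ^ m) = ENNReal.ofReal (((2 : ℝ) ^ n) ^ m) := by
    rw [ENNReal.ofReal_pow (by positivity), ENNReal.ofReal_pow (by norm_num)]
    norm_num
  rw [e1, e2, e3, e4, ← ENNReal.ofReal_mul (by positivity), ← ENNReal.ofReal_mul (by positivity),
    ← ENNReal.ofReal_mul (by positivity), ← ENNReal.ofReal_mul (by positivity)]

lemma average_upper {M k : ℕ} (hk : 1 ≤ k) (hM : 1 ≤ M)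
    (hN : Fintype.card (JJ (2 * k)) ≤ 2 * M) {r : ℝ} (hr : 0 < r) :
    (∫⁻ v in Balls (2 * M) (2 * k), (projVol (cross (2 * M) r) v) ^ (-((2 * M : ℕ) : ℝ))) /
      volume (Balls (2 * M) (2 * k)) ≤
    ENNReal.ofReal ((((2 * M : ℕ) : ℝ)) ^ Fintype.card (JJ (2 * k)) *
      (((((2 * k).factorial : ℝ) ^ 2 * (((2 * M : ℕ) : ℝ)) ^ (2 * k) / 2 ^ (2 * k)) ^
        Fintype.card (JJ (2 * k)) * ((r ^ (2 * k)) ^ (2 * M))⁻¹) *
        ((3 / 2) ^ (2 * k * (2 * M)) * (2 ^ (2 * k)) ^ Fintype.card (JJ (2 * k)))) /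
        (Real.pi ^ M / M.factorial) ^ (2 * k)) := by
  have hpi := Real.pi_pos
  have hV : volume (Balls (2 * M) (2 * k)) =
      ENNReal.ofReal ((Real.pi ^ M / M.factorial) ^ (2 * k)) := by
    rw [volume_Balls]
    have hnt : Nontrivial (E (2 * M)) :=
      Module.nontrivial_of_finrank_pos (R := ℝ) (by rw [finrank_euclideanSpace_fin]; omega)
    rw [InnerProductSpace.volume_ball_of_dim_even (k := M) (by rw [finrank_euclideanSpace_fin])]
    rw [ENNReal.ofReal_one, one_pow, one_mul, ENNReal.ofReal_pow (by positivity)]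
  rw [hV, ENNReal.ofReal_div_of_pos (by positivity)]
  refine ENNReal.div_le_div_right ?_ _
  refine (integral_bound (by omega) hN hr).trans (le_of_eq ?_)
  rw [cc_eq _ _ (by omega)]
  exact bookkeeping (2 * M) (2 * k) _ (by positivity) hr

section Params

open Filter Topology

lemma central_bound {M : ℕ} (hM : 1 ≤ M) :
    ((M.factorial : ℝ) ^ 2 * 2 ^ (2 * M)) / (2 * M).factorial ≤ ((2 * M : ℕ) : ℝ) := by
  have h1 := Nat.four_pow_le_two_mul_self_mul_centralBinom M hM
  have h2 : (M.centralBinom : ℝ) * (M.factorial : ℝ) ^ 2 = ((2 * M).factorial : ℝ) := by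
    have h3 := Nat.choose_mul_factorial_mul_factorial (n := 2 * M) (k := M) (by omega)
    rw [show 2 * M - M = M by omega] at h3
    rw [Nat.centralBinom_eq_two_mul_choose]
    have h4 : (((2 * M).choose M * M.factorial * M.factorial : ℕ) : ℝ) =
      (((2 * M).factorial : ℕ) : ℝ) := by rw [h3]
    push_cast at h4
    rw [← h4]; ring
  rw [div_le_iff₀ (by positivity), ← h2]
  have h5 : ((4 : ℝ)) ^ M ≤ ((2 * M : ℕ) : ℝ) * M.centralBinom := by exact_mod_cast h1
  calc ((M.factorial : ℝ) ^ 2 * 2 ^ (2 * M)) = (M.factorial : ℝ) ^ 2 * 4 ^ M := by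
        rw [pow_mul]; norm_num
    _ ≤ (M.factorial : ℝ) ^ 2 * (((2 * M : ℕ) : ℝ) * M.centralBinom) := by gcongr
    _ = _ := by ring

lemma exists_k (C : ℝ) : ∃ k : ℕ, 1 ≤ k ∧ ((C * (3 / 2)) ^ (2 * k) * (Real.pi ^ k / k.factorial)) ≤
    1 / 2 * Real.pi ^ (2 * k) := by
  have hpi := Real.pi_pos
  have h1 := FloorSemiring.tendsto_pow_div_factorial_atTop ((C * (3 / 2)) ^ 2 / Real.pi)
  have h2 := h1.eventually (eventually_lt_nhds (show (0 : ℝ) < 1 / 2 by norm_num))
  obtain ⟨k, hk⟩ := (h2.and (eventually_ge_atTop 1)).exists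
  refine ⟨k, hk.2, ?_⟩
  have h3 : ((C * (3 / 2)) ^ (2 * k) * (Real.pi ^ k / k.factorial)) =
      (((C * (3 / 2)) ^ 2 / Real.pi) ^ k / k.factorial) * Real.pi ^ (2 * k) := by
    rw [div_pow, ← pow_mul]
    have : (k.factorial : ℝ) ≠ 0 := by positivity
    have h4 : Real.pi ^ (2 * k) = Real.pi ^ k * Real.pi ^ k := by rw [two_mul, pow_add]
    rw [h4]
    field_simp
  rw [h3]
  exact mul_le_mul_of_nonneg_right hk.1.le (by positivity)

lemma exists_M (k m : ℕ) : ∃ M : ℕ, 1 ≤ M ∧ 2 * k + 1 ≤ 2 * M ∧ m ≤ 2 * M ∧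
    (((2 * M : ℕ) : ℝ)) ^ m * (((((2 * k).factorial : ℝ) ^ 2 * (((2 * M : ℕ) : ℝ)) ^ (2 * k)) ^ m) *
      ((1 / 2) ^ (2 * M) * (((2 * M : ℕ) : ℝ)) ^ (2 * k))) < 1 := by
  have h1 := tendsto_pow_const_mul_const_pow_of_abs_lt_one (m + 2 * k * m + 2 * k) (r := (1 / 2 : ℝ))
    (by rw [abs_of_pos] <;> norm_num)
  have h2 := h1.const_mul ((((2 * k).factorial : ℝ) ^ 2) ^ m)
  rw [mul_zero] at h2
  have h3 := h2.eventually (eventually_lt_nhds (show (0 : ℝ) < 1 by norm_num))
  have h4 : Tendsto (fun M : ℕ => 2 * M) atTop atTop :=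
    tendsto_id.const_mul_atTop' (by norm_num)
  have h5 := h4.eventually h3
  obtain ⟨M, hM⟩ := (h5.and (eventually_ge_atTop (1 + k + m))).exists
  refine ⟨M, by omega, by omega, by omega, ?_⟩
  refine lt_of_eq_of_lt ?_ hM.1
  rw [mul_pow, pow_add, pow_add, pow_mul (((2 * M : ℕ) : ℝ)) (2 * k) m]
  ring

lemma params_ineq {C : ℝ} (hC : 1 ≤ C) {k M m : ℕ} (hM : 1 ≤ M)
    (h1 : ((C * (3 / 2)) ^ (2 * k) * (Real.pi ^ k / k.factorial)) ≤ 1 / 2 * Real.pi ^ (2 * k))
    (h2 : (((2 * M : ℕ) : ℝ)) ^ m * (((((2 * k).factorial : ℝ) ^ 2 *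
      (((2 * M : ℕ) : ℝ)) ^ (2 * k)) ^ m) *
      ((1 / 2) ^ (2 * M) * (((2 * M : ℕ) : ℝ)) ^ (2 * k))) < 1)
    {r ρ : ℝ} (hρ : 0 < ρ) (hrN : r ^ (2 * M) = (2 * M).factorial / 2 ^ (2 * M))
    (hρN : ρ ^ (2 * M) = M.factorial / Real.pi ^ M) :
    C ^ (2 * k * (2 * M)) * ((((2 * M : ℕ) : ℝ)) ^ m *
      (((((2 * k).factorial : ℝ) ^ 2 * (((2 * M : ℕ) : ℝ)) ^ (2 * k) / 2 ^ (2 * k)) ^
        m * ((r ^ (2 * k)) ^ (2 * M))⁻¹) *
        ((3 / 2) ^ (2 * k * (2 * M)) * (2 ^ (2 * k)) ^ m)) /
        (Real.pi ^ M / M.factorial) ^ (2 * k)) <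
    ((ρ ^ (2 * k) * (Real.pi ^ k / k.factorial)) ^ (2 * M))⁻¹ := by
  have hpi := Real.pi_pos
  set N : ℝ := ((2 * M : ℕ) : ℝ) with hN
  have hN0 : 0 < N := by rw [hN]; exact_mod_cast (by omega : 0 < 2 * M)
  have hC0 : 0 < C := by linarith
  have hrr : (r ^ (2 * k)) ^ (2 * M) = ((2 * M).factorial / 2 ^ (2 * M)) ^ (2 * k) := by
    rw [← pow_mul, mul_comm, pow_mul, hrN]
  have hρρ : (ρ ^ (2 * k)) ^ (2 * M) = (M.factorial / Real.pi ^ M) ^ (2 * k) := by
    rw [← pow_mul, mul_comm, pow_mul, hρN]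
  have e1 : C ^ (2 * k * (2 * M)) * (N ^ m *
      (((((2 * k).factorial : ℝ) ^ 2 * N ^ (2 * k) / 2 ^ (2 * k)) ^
        m * ((r ^ (2 * k)) ^ (2 * M))⁻¹) *
        ((3 / 2) ^ (2 * k * (2 * M)) * (2 ^ (2 * k)) ^ m)) /
        (Real.pi ^ M / M.factorial) ^ (2 * k)) *
      ((ρ ^ (2 * k) * (Real.pi ^ k / k.factorial)) ^ (2 * M)) =
      (N ^ m * (((2 * k).factorial : ℝ) ^ 2 * N ^ (2 * k)) ^ m) *
      ((C * (3 / 2)) ^ (2 * k) * (Real.pi ^ k / k.factorial)) ^ (2 * M) *
      (((M.factorial : ℝ) ^ 2 * 2 ^ (2 * M)) / (2 * M).factorial / Real.pi ^ (2 * M)) ^ (2 * k) := by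
    rw [mul_pow (ρ ^ (2 * k)), hρρ, hrr, pow_mul C, pow_mul (3 / 2 : ℝ), mul_pow C, mul_pow (C ^ (2 * k) * _),
      mul_pow (C ^ (2 * k)), div_pow (((2 * k).factorial : ℝ) ^ 2 * N ^ (2 * k)),
      show Real.pi ^ (2 * M) = Real.pi ^ M * Real.pi ^ M by rw [two_mul, pow_add]]
    have f1 : ((2 * M).factorial : ℝ) ≠ 0 := by positivity
    have f2 : (M.factorial : ℝ) ≠ 0 := by positivity
    have f3 : (k.factorial : ℝ) ≠ 0 := by positivity
    simp only [div_pow, mul_pow, inv_div]
    field_simp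
    rw [← pow_mul, ← pow_mul, mul_comm]
  have hD : 0 < (ρ ^ (2 * k) * (Real.pi ^ k / k.factorial)) ^ (2 * M) := by positivity
  rw [← mul_lt_mul_iff_left₀ hD, e1, inv_mul_cancel₀ hD.ne']
  refine lt_of_le_of_lt ?_ h2
  calc (N ^ m * (((2 * k).factorial : ℝ) ^ 2 * N ^ (2 * k)) ^ m) *
      ((C * (3 / 2)) ^ (2 * k) * (Real.pi ^ k / k.factorial)) ^ (2 * M) *
      (((M.factorial : ℝ) ^ 2 * 2 ^ (2 * M)) / (2 * M).factorial / Real.pi ^ (2 * M)) ^ (2 * k)
      ≤ (N ^ m * (((2 * k).factorial : ℝ) ^ 2 * N ^ (2 * k)) ^ m) *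
      (1 / 2 * Real.pi ^ (2 * k)) ^ (2 * M) * (N / Real.pi ^ (2 * M)) ^ (2 * k) := by
        have h3 := central_bound hM
        gcongr
    _ = _ := by
        rw [mul_pow (1 / 2 : ℝ), div_pow N, ← pow_mul Real.pi (2 * k), ← pow_mul Real.pi (2 * M),
          mul_comm (2 * M) (2 * k)]
        field_simp

end Params

lemma ball_vol {M : ℕ} (hM : 1 ≤ M) {ρ : ℝ} (hρ : 0 < ρ)
    (hρN : ρ ^ (2 * M) = M.factorial / Real.pi ^ M) :
    volume (closedBall (0 : E (2 * M)) ρ) = 1 := by
  have hpi := Real.pi_pos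
  have hnt : Nontrivial (E (2 * M)) :=
    Module.nontrivial_of_finrank_pos (R := ℝ) (by rw [finrank_euclideanSpace_fin]; omega)
  rw [InnerProductSpace.volume_closedBall_of_dim_even (k := M)
    (by rw [finrank_euclideanSpace_fin])]
  rw [finrank_euclideanSpace_fin, ← ENNReal.ofReal_pow hρ.le, hρN,
    ← ENNReal.ofReal_mul (by positivity)]
  have h : (M.factorial : ℝ) / Real.pi ^ M * (Real.pi ^ M / M.factorial) = 1 := by
    have f2 : (M.factorial : ℝ) ≠ 0 := by positivity
    field_simp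
  rw [h, ENNReal.ofReal_one]

/-- `K` is a convex body in `ℝ^N` of volume one with barycenter at the origin -/
def IsCentredBody (N : ℕ) (K : Set (E N)) : Prop :=
  IsCompact K ∧ Convex ℝ K ∧ (interior K).Nonempty ∧ volume K = 1 ∧ (∫ x in K, x) = 0

/-- `D` is the centred Euclidean ball `D_N` of volume one -/
def IsUnitVolumeBall (N : ℕ) (D : Set (E N)) : Prop :=
  ∃ ρ : ℝ, 0 < ρ ∧ D = closedBall 0 ρ ∧ volume D = 1

/-- For every `C` there are `N`, `1 ≤ n ≤ N - 1` and a convex body `K ⊂ ℝ^N` of volume `1` with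
barycenter at the origin such that `Φ_[n](K) > C Φ_[n](D_N)`, where `D = D_N` is the centred ball
of volume one; moreover `Φ_[n](K)` is finite. -/
theorem result : ∀ C : ℝ, ∃ (N n : ℕ) (K D : Set (E N)),
    1 ≤ n ∧ n + 1 ≤ N ∧ IsCentredBody N K ∧ IsUnitVolumeBall N D ∧
    Phi N n K ≠ ⊤ ∧ ENNReal.ofReal C * Phi N n D < Phi N n K := by
  intro C₀
  have hpi := Real.pi_pos
  set C : ℝ := max C₀ 1 with hCdef
  have hC : 1 ≤ C := le_max_right _ _
  obtain ⟨k, hk, h1⟩ := exists_k C
  obtain ⟨M, hM, hkM, hcard, h2⟩ := exists_M k (Fintype.card (JJ (2 * k)))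
  have h2M : 2 * M ≠ 0 := by omega
  have hNR : ((2 * M : ℕ) : ℝ) ≠ 0 := by exact_mod_cast h2M
  -- the radius of the cross-polytope
  obtain ⟨r, hr, hrN⟩ : ∃ r : ℝ, 0 < r ∧ r ^ (2 * M) = (2 * M).factorial / 2 ^ (2 * M) := by
    refine ⟨((2 * M).factorial / 2 ^ (2 * M) : ℝ) ^ (((2 * M : ℕ) : ℝ)⁻¹), by positivity, ?_⟩
    exact Real.rpow_inv_natCast_pow (by positivity) h2M
  obtain ⟨ρ, hρ, hρN⟩ : ∃ ρ : ℝ, 0 < ρ ∧ ρ ^ (2 * M) = M.factorial / Real.pi ^ M := by
    refine ⟨(M.factorial / Real.pi ^ M : ℝ) ^ (((2 * M : ℕ) : ℝ)⁻¹), by positivity, ?_⟩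
    exact Real.rpow_inv_natCast_pow (by positivity) h2M
  have hmain := params_ineq hC hM h1 h2 hρ hrN hρN
  have hup := average_upper hk hM hcard hr
  have hlow := average_lower (N := 2 * M) hk (by omega) hρ (subset_refl (closedBall (0 : E (2 * M)) ρ))
  have hlow' := average_lower (N := 2 * M) hk (by omega) hr (cross_sub_ball (2 * M) r)
  refine ⟨2 * M, 2 * k, cross (2 * M) r, closedBall 0 ρ, by omega, hkM, ⟨cross_compact _ _,
    cross_convex _ _, cross_interior _ hr, ?_, cross_barycenter _ _⟩,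
    ⟨ρ, hρ, rfl, ball_vol hM hρ hρN⟩, ?_, ?_⟩
  · rw [vol_cross _ (by omega) hr.le, hrN]
    have f1 : ((2 * M).factorial : ℝ) ≠ 0 := by positivity
    have : ((2 * M).factorial : ℝ) / 2 ^ (2 * M) * (2 ^ (2 * M) / (2 * M).factorial) = 1 := by
      field_simp
    rw [this, ENNReal.ofReal_one]
  · unfold Phi
    rw [ENNReal.rpow_neg]
    refine ENNReal.inv_ne_top.2 ?_
    intro h0
    have hpos : (0 : ℝ) < 1 / (((2 * k : ℕ) : ℝ) * ((2 * M : ℕ) : ℝ)) := by
      have : 0 < 2 * k := by omega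
      have : 0 < 2 * M := by omega
      positivity
    rw [ENNReal.rpow_eq_zero_iff] at h0
    rcases h0 with h0 | h0
    · rw [h0.1] at hlow'
      have : (0 : ℝ) < ((r ^ (2 * k) * (Real.pi ^ k / k.factorial)) ^ (2 * M))⁻¹ := by positivity
      exact absurd (ENNReal.ofReal_pos.2 this) (not_lt.2 hlow')
    · linarith [h0.2]
  · have hle : ENNReal.ofReal C₀ ≤ ENNReal.ofReal C := ENNReal.ofReal_le_ofReal (le_max_left _ _)
    refine lt_of_le_of_lt (mul_le_mul_left hle _) ?_
    unfold Phi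
    rw [← Nat.cast_mul]
    refine rpow_compare (by positivity) ?_ ENNReal.ofReal_ne_top ?_
    · exact (ENNReal.ofReal_pos.2 (by linarith)).ne'
    · refine lt_of_le_of_lt (mul_le_mul_right hup _) (lt_of_lt_of_le ?_ hlow)
      rw [← ENNReal.ofReal_pow (by linarith), ← ENNReal.ofReal_mul (by positivity)]
      exact (ENNReal.ofReal_lt_ofReal_iff (by positivity)).2 hmain

end Pool.Agent.Results.MP_ed9c69_gt.CrossPolytope
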